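import Pool.Agent.Helper14.LE.Stmts

/-!
# MP_08fe4e_an, planar disproof: module E1 (upper bounds of the diagonal)
-/

open MeasureTheory Set Filter Topology InnerProductSpace

noncomputable section

namespace LEP.E1

open LEP

theorem mm0 : mm 0 = 3 := rfl
theorem mm1 : mm 1 = 9 := rfl
theorem al0 : al 0 = th0 := rfl
theorem al1 : al 1 = 20 * th0 := rfl

theorem be0 : be 0 = 19 * th0 := by
  unfold be th0
  rw [al0, mm0]
  unfold th0
  push_cast
  ring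

theorem be1 : be 1 = 26 * th0 := by
  unfold be
  rw [al1, mm1]
  unfold th0
  push_cast
  ring

theorem th0_pos : 0 < th0 := by
  unfold th0
  positivity

theorem arm_disj {z : ℂ} (h0 : z ∈ Arm 0) (h1 : z ∈ Arm 1) : False := by
  have h2 := h0.2.2
  have h3 := h1.2.1
  rw [be0] at h2
  rw [al1] at h3
  have := th0_pos
  linarith

theorem arm_eq {z : ℂ} {i j : Fin 2} (hi : z ∈ Arm i) (hj : z ∈ Arm j) : i = j := by
  fin_cases i <;> fin_cases j
  · rfl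
  · exact (arm_disj hi hj).elim
  · exact (arm_disj hj hi).elim
  · rfl

theorem mp0 : mp 0 = 3 - 1 / 200 := by
  unfold mp
  rw [mm0]
  norm_num

theorem mp1 : mp 1 = 9 - 1 / 200 := by
  unfold mp
  rw [mm1]
  norm_num

theorem mp_ge (i : Fin 2) : (5 / 2 : ℝ) ≤ mp i := by
  fin_cases i
  · show (5 / 2 : ℝ) ≤ mp 0
    rw [mp0]; norm_num
  · show (5 / 2 : ℝ) ≤ mp 1
    rw [mp1]; norm_num

theorem mp_le (i : Fin 2) : mp i ≤ 9 := by
  fin_cases i
  · show mp 0 ≤ 9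
    rw [mp0]; norm_num
  · show mp 1 ≤ 9
    rw [mp1]; norm_num

theorem bb_small {z : ℂ} (h : ‖z‖ < 8) : bb z = 1 := by
  unfold bb
  rw [if_pos h]

theorem bb_arm_eq {z : ℂ} {i : Fin 2} (hz : z ∈ Arm i) (h : 8 ≤ ‖z‖) : bb z = ‖z‖ ^ (-mp i) := by
  unfold bb
  rw [if_neg (not_lt.mpr h)]
  fin_cases i
  · have hz' : z ∈ Arm 0 := hz
    rw [if_pos hz']
    rfl
  · have hz' : z ∈ Arm 1 := hz
    have hz0 : z ∉ Arm 0 := fun h0 => arm_disj h0 hz'
    rw [if_neg hz0, if_pos hz']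
    rfl

theorem bb_nonneg (z : ℂ) : 0 ≤ bb z := by
  unfold bb
  split_ifs
  · exact zero_le_one
  · positivity
  · positivity
  · exact zero_le_one

/-- `bb` on an arm. -/
theorem bb_arm {z : ℂ} {i : Fin 2} (hz : z ∈ Arm i) :
    bb z ≤ 8 ^ (9 : ℝ) * ‖z‖ ^ (-mp i) := by
  have hz0 : 0 < ‖z‖ := norm_pos_iff.mpr hz.1
  rcases lt_or_ge ‖z‖ 8 with h | h
  · rw [bb_small h]
    have h1 : (8 : ℝ) ^ (-mp i) ≤ ‖z‖ ^ (-mp i) :=
      Real.rpow_le_rpow_of_nonpos hz0 h.le (by have := mp_ge i; linarith)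
    have h2 : (1 : ℝ) ≤ 8 ^ (9 : ℝ) * 8 ^ (-mp i) := by
      rw [← Real.rpow_add (by norm_num)]
      exact Real.one_le_rpow (by norm_num) (by have := mp_le i; linarith)
    have h3 : (0 : ℝ) ≤ 8 ^ (9 : ℝ) := by positivity
    exact h2.trans (mul_le_mul_of_nonneg_left h1 h3)
  · rw [bb_arm_eq hz h]
    have h1 : (1 : ℝ) ≤ 8 ^ (9 : ℝ) := Real.one_le_rpow (by norm_num) (by norm_num)
    have h2 : 0 ≤ ‖z‖ ^ (-mp i) := by positivity
    nlinarith

/-- The integrable majorant of `bb ^ 2`. -/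
def Wm (z : ℂ) : ℝ := 9 ^ (5 : ℝ) * (1 + ‖z‖) ^ (-(5 : ℝ))

theorem Wm_nonneg (z : ℂ) : 0 ≤ Wm z := by
  unfold Wm
  positivity

theorem Wm_int : Integrable Wm volume := by
  unfold Wm
  refine Integrable.const_mul ?_ _
  refine integrable_one_add_norm ?_
  rw [Complex.finrank_real_complex]
  norm_num

theorem bb_sq {z : ℂ} (h : 8 ≤ ‖z‖ → ∃ i, z ∈ Arm i) : bb z ^ 2 ≤ Wm z := by
  unfold Wm
  have h9 : (9 : ℝ) ^ (5 : ℝ) * (1 + ‖z‖) ^ (-(5 : ℝ)) = (9 / (1 + ‖z‖)) ^ (5 : ℝ) := by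
    rw [Real.div_rpow (by norm_num) (by positivity), Real.rpow_neg (by positivity)]
    rfl
  rw [h9]
  have h5 : (9 / (1 + ‖z‖)) ^ (5 : ℝ) = (9 / (1 + ‖z‖)) ^ (5 : ℕ) := by
    rw [← Real.rpow_natCast]
    norm_num
  rcases lt_or_ge ‖z‖ 8 with h1 | h1
  · rw [bb_small h1, one_pow, h5]
    refine one_le_pow₀ ?_
    rw [le_div_iff₀ (by positivity)]
    linarith
  · obtain ⟨i, hi⟩ := h h1
    rw [bb_arm_eq hi h1, ← Real.rpow_natCast, ← Real.rpow_mul (norm_nonneg _)]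
    have hz0 : 0 < ‖z‖ := by linarith
    have h2 : ‖z‖ ^ (-mp i * ((2 : ℕ) : ℝ)) ≤ ‖z‖ ^ (-(5 : ℝ)) := by
      refine Real.rpow_le_rpow_of_exponent_le (by linarith) ?_
      have := mp_ge i
      push_cast
      linarith
    refine h2.trans ?_
    rw [Real.rpow_neg hz0.le, ← Real.inv_rpow hz0.le]
    refine Real.rpow_le_rpow (by positivity) ?_ (by norm_num)
    rw [inv_eq_one_div, div_le_div_iff₀ hz0 (by positivity)]
    linarith

theorem arm_meas (i : Fin 2) : MeasurableSet (Arm i) := by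
  have h : Arm i = {z : ℂ | z ≠ 0} ∩ (Complex.arg ⁻¹' Ioo (al i) (be i)) := by
    ext z
    exact Iff.rfl
  rw [h]
  exact (measurableSet_singleton (0 : ℂ)).compl.inter (Complex.measurable_arg measurableSet_Ioo)

theorem armR_meas (i : Fin 2) (ρ : ℝ) : MeasurableSet (ArmR i ρ) :=
  (arm_meas i).inter (measurableSet_lt measurable_norm measurable_const)

theorem ddom_sub {Rv : Fin 2 → ℝ} {R : ℝ → ℝ} (h : ∀ t, R t ≤ R0 Rv t) :
    Ddom R ⊆ Ddom (R0 Rv) := fun _ hz => ⟨lt_of_lt_of_le hz.1 (h _), hz.2⟩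

theorem int3 {A : Set ℂ} {f g h : ℂ → ℝ} (hf : IntegrableOn f A) (hg : IntegrableOn g A)
    (hh : IntegrableOn h A) (a b : ℝ) : ∫ z in A, (f z + a * g z + b * h z) =
      (∫ z in A, f z) + a * (∫ z in A, g z) + b * ∫ z in A, h z := by
  have h1 : IntegrableOn (fun z => a * g z) A := hg.const_mul a
  have h2 : IntegrableOn (fun z => b * h z) A := hh.const_mul b
  have h3 : IntegrableOn (fun z => f z + a * g z) A := hf.add h1
  have h4 : ∫ z in A, (f z + a * g z + b * h z) = (∫ z in A, (f z + a * g z)) +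
      ∫ z in A, b * h z := integral_add h3 h2
  have h5 : ∫ z in A, (f z + a * g z) = (∫ z in A, f z) + ∫ z in A, a * g z :=
    integral_add hf h1
  rw [h4, h5, integral_const_mul, integral_const_mul]

/-- The estimate with the tail kept. -/
theorem core (hT2 : ST_T2) (hTM : ST_TM) (hSEC0 : ST_SEC0) (hS1 : ST_S1) (hS2 : ST_S2)
    (hU1 : ST_U1) (hU2 : ST_U2) (hGF2 : ST_GF2) (hGEO : ST_GEO) :
    ∃ C : ℝ, 0 < C ∧ ∀ Rv R, Sub Rv R → ∀ i, ∀ x ∈ Ddom R, x ∈ Arm i → 4 ≤ ‖x‖ →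
      Gt (Ddom R) x x ≤ gam i (Complex.arg x) -
        (∫ y in Arm i \ ArmR i (Rv i), (GA i x y) ^ 2) / psi x ^ 2 + C * ‖x‖ ^ (-2 * mp i) := by
  obtain ⟨C1, hC1, hU1⟩ := hU1
  obtain ⟨C2, hC2, hU2⟩ := hU2
  obtain ⟨⟨C3, hC3, hS2⟩, _⟩ := hS2
  obtain ⟨hS0a, hS0b, hS0c, _, _, hS0d, _⟩ := hSEC0
  obtain ⟨hTM, _⟩ := hTM
  obtain ⟨hS1, _⟩ := hS1
  -- a common constant
  set C0 : ℝ := C1 + C2 with hC0
  have hC0p : 0 < C0 := by positivity
  set K : ℝ := ∫ z, Wm z with hK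
  have hKn : 0 ≤ K := integral_nonneg Wm_nonneg
  set E : ℝ := 8 ^ (9 : ℝ) with hE
  have hEp : 0 < E := by positivity
  refine ⟨400 * (2 * C0 * E * C3 + 2 * C0 ^ 2 * K) + 1, by positivity, ?_⟩
  rintro Rv R ⟨hRv, hR, hRle⟩ i x hxD hxA hx4
  have hx0 : 0 < ‖x‖ := by linarith
  have hRv1 : ∀ j, 1 ≤ Rv j := fun j => by have := hRv j; linarith
  obtain ⟨hP0, _, _, _, _, harm, hcov, _⟩ := hGEO.2 Rv hRv1
  have hxD0 : x ∈ Ddom (R0 Rv) := ddom_sub hRle hxD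
  obtain ⟨_, hDo, _⟩ := hGEO.1 (R0 Rv) hP0
  have hDm : MeasurableSet (Ddom (R0 Rv)) := hDo.measurableSet
  have hG := hGF2 (R0 Rv) hP0
  obtain ⟨hT2a, _, _, _, _, hT2f, _⟩ := hT2 (R0 Rv) hP0
  -- membership of arms
  have hxR : x ∈ ArmR i (Rv i) := by
    obtain ⟨j, hj⟩ := hcov x hxD0 (by linarith)
    have := arm_eq hxA hj.1
    subst this
    exact hj
  set A := ArmR i (Rv i) with hA
  have hAm : MeasurableSet A := armR_meas i (Rv i)
  have hAD : A ⊆ Ddom (R0 Rv) := harm i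
  have hAA : A ⊆ Arm i := fun z hz => hz.1
  set X : ℝ := ‖x‖ ^ (-mp i) with hX
  have hXp : 0 < X := by positivity
  have hsq : ∀ z ∈ Ddom (R0 Rv), bb z ^ 2 ≤ Wm z := by
    intro z hz
    refine bb_sq fun h8 => ?_
    obtain ⟨j, hj⟩ := hcov z hz (by linarith)
    exact ⟨j, hj.1⟩
  -- pointwise bounds
  have hpA : ∀ z ∈ A, (gD (Ddom (R0 Rv)) x z) ^ 2 ≤
      (GA i x z) ^ 2 + (2 * (C0 * X) * E) * (GA i x z * ‖z‖ ^ (-mp i)) +
        (C0 * X) ^ 2 * Wm z := by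
    intro z hz
    have hzA := hAA hz
    have hGn : 0 ≤ GA i x z := (hS0c i x hxA z hzA).1
    have hW := Wm_nonneg z
    have hzn : 0 ≤ ‖z‖ ^ (-mp i) := by positivity
    by_cases hzx : z = x
    · subst hzx
      rw [hG.diag]
      have : 0 ≤ (2 * (C0 * X) * E) * (GA i z z * ‖z‖ ^ (-mp i)) := by positivity
      have h3 : 0 ≤ (C0 * X) ^ 2 * Wm z := by positivity
      have h4 : 0 ≤ (GA i z z) ^ 2 := sq_nonneg _
      rw [zero_pow two_ne_zero]
      linarith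
    · have h1 := (hU2 Rv hRv i x hxR z hz (Ne.symm hzx)).2 hx4
      have h2 := (hS0d i (Rv i) (by have := hRv i; linarith) x hxR z hz (Ne.symm hzx)).2
      have hb := bb_arm hzA
      have hbn := bb_nonneg z
      have hg0 := hG.nonneg x z
      have h3 : gD (Ddom (R0 Rv)) x z ≤ GA i x z + C0 * X * bb z := by
        have h4 : C2 * X * bb z ≤ C0 * X * bb z := by
          have : 0 ≤ X * bb z := by positivity
          nlinarith
        linarith
      have h5 : (gD (Ddom (R0 Rv)) x z) ^ 2 ≤ (GA i x z + C0 * X * bb z) ^ 2 :=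
        pow_le_pow_left₀ hg0 h3 2
      have h6 : (C0 * X) ^ 2 * bb z ^ 2 ≤ (C0 * X) ^ 2 * Wm z :=
        mul_le_mul_of_nonneg_left (hsq z (hAD hz)) (by positivity)
      have h7 : (2 * (C0 * X)) * GA i x z * bb z ≤
          (2 * (C0 * X)) * GA i x z * (E * ‖z‖ ^ (-mp i)) :=
        mul_le_mul_of_nonneg_left hb (by positivity)
      nlinarith
  have hpB : ∀ z ∈ Ddom (R0 Rv) \ A, (gD (Ddom (R0 Rv)) x z) ^ 2 ≤ (C0 * X) ^ 2 * Wm z := by
    intro z hz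
    have hcase : z ∉ Arm i ∨ ‖z‖ ≤ 2 := by
      by_contra hcon
      push Not at hcon
      obtain ⟨j, hj⟩ := hcov z hz.1 (by linarith)
      have := arm_eq hcon.1 hj.1
      subst this
      exact hz.2 hj
    have h1 := hU1 Rv hRv i x hxD0 z hz.1 hxA hx4 hcase
    have hbn := bb_nonneg z
    have h3 : gD (Ddom (R0 Rv)) x z ≤ C0 * X * bb z := by
      have h4 : C1 * X * bb z ≤ C0 * X * bb z := by
        have : 0 ≤ X * bb z := by positivity
        nlinarith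
      linarith
    have h5 : (gD (Ddom (R0 Rv)) x z) ^ 2 ≤ (C0 * X * bb z) ^ 2 :=
      pow_le_pow_left₀ (hG.nonneg x z) h3 2
    have h6 : (C0 * X) ^ 2 * bb z ^ 2 ≤ (C0 * X) ^ 2 * Wm z :=
      mul_le_mul_of_nonneg_left (hsq z hz.1) (by positivity)
    rw [mul_pow] at h5
    exact h5.trans h6
  -- integrals
  have hi0 := hT2a x hxD0
  have hiG := (hS1 i x hxA).1
  have hiG2 := (hS2 i x hxA).1
  have hiA : IntegrableOn (fun z => (GA i x z) ^ 2 +
      (2 * (C0 * X) * E) * (GA i x z * ‖z‖ ^ (-mp i)) + (C0 * X) ^ 2 * Wm z) A :=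
    ((hiG.mono_set hAA).add ((hiG2.mono_set hAA).const_mul _)).add
      (Wm_int.integrableOn.const_mul _)
  have hW1 : ∀ S : Set ℂ, ∫ z in S, Wm z ≤ K := fun S =>
    setIntegral_le_integral Wm_int (Filter.Eventually.of_forall Wm_nonneg)
  have hintA : ∫ z in A, (gD (Ddom (R0 Rv)) x z) ^ 2 ≤ (∫ z in A, (GA i x z) ^ 2) +
      (2 * (C0 * X) * E) * (∫ z in Arm i, GA i x z * ‖z‖ ^ (-mp i)) + (C0 * X) ^ 2 * K := by
    refine (setIntegral_mono_on (hi0.mono_set hAD) hiA hAm hpA).trans ?_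
    rw [int3 (hiG.mono_set hAA) (hiG2.mono_set hAA) Wm_int.integrableOn]
    have h1 : ∫ z in A, GA i x z * ‖z‖ ^ (-mp i) ≤ ∫ z in Arm i, GA i x z * ‖z‖ ^ (-mp i) := by
      refine setIntegral_mono_set hiG2 ?_ (Filter.Eventually.of_forall hAA)
      refine (ae_restrict_iff' (arm_meas i)).2 (Filter.Eventually.of_forall fun z hz => ?_)
      have : 0 ≤ GA i x z := (hS0c i x hxA z hz).1
      show 0 ≤ GA i x z * ‖z‖ ^ (-mp i)
      positivity
    have h2 := mul_le_mul_of_nonneg_left h1 (show 0 ≤ 2 * (C0 * X) * E by positivity)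
    have h3 := mul_le_mul_of_nonneg_left (hW1 A) (show 0 ≤ (C0 * X) ^ 2 by positivity)
    linarith
  have hintB : ∫ z in Ddom (R0 Rv) \ A, (gD (Ddom (R0 Rv)) x z) ^ 2 ≤ (C0 * X) ^ 2 * K := by
    refine (setIntegral_mono_on (hi0.mono_set sdiff_subset)
      (Wm_int.integrableOn.const_mul _) (hDm.diff hAm) hpB).trans ?_
    rw [integral_const_mul]
    exact mul_le_mul_of_nonneg_left (hW1 _) (by positivity)
  have hsplit : ∫ z in Ddom (R0 Rv), (gD (Ddom (R0 Rv)) x z) ^ 2 =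
      (∫ z in A, (gD (Ddom (R0 Rv)) x z) ^ 2) +
        ∫ z in Ddom (R0 Rv) \ A, (gD (Ddom (R0 Rv)) x z) ^ 2 := by
    rw [setIntegral_diff hAm hi0 hAD]
    ring
  have htail : ∫ z in A, (GA i x z) ^ 2 = (∫ z in Arm i, (GA i x z) ^ 2) -
      ∫ z in Arm i \ A, (GA i x z) ^ 2 := by
    rw [setIntegral_diff hAm hiG hAA]
    ring
  have hgam := (hS1 i x hxA).2
  have hS2x := (hS2 i x hxA).2
  set T : ℝ := ∫ z in Arm i \ A, (GA i x z) ^ 2 with hT
  -- powers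
  obtain ⟨_, hps, _⟩ := hS0a i x hxA
  have hpsi : 0 < psi x := by linarith [show 0 < ‖x‖ / 20 by positivity]
  have hpsi2 : ‖x‖ ^ 2 ≤ 400 * psi x ^ 2 := by nlinarith
  have hX2 : X ^ 2 = ‖x‖ ^ (-2 * mp i) := by
    rw [hX, ← Real.rpow_natCast, ← Real.rpow_mul hx0.le]
    congr 1
    push_cast
    ring
  have hXX : X * ‖x‖ ^ (2 - mp i) = ‖x‖ ^ (-2 * mp i) * ‖x‖ ^ 2 := by
    rw [hX, ← Real.rpow_natCast, ← Real.rpow_add hx0, ← Real.rpow_add hx0]
    congr 1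
    push_cast
    ring
  set Y : ℝ := ‖x‖ ^ (-2 * mp i) with hY
  have hYp : 0 < Y := by positivity
  -- assembly
  have hGam : Gam (Ddom R) x x ≤ gam i (Complex.arg x) * psi x ^ 2 - T +
      (2 * C0 * E * C3 + 2 * C0 ^ 2 * K) * (Y * ‖x‖ ^ 2) := by
    refine (hTM R (R0 Rv) hR hP0 hRle x hxD x hxD).trans ?_
    rw [hT2f x hxD0, hsplit]
    have h1 : (2 * (C0 * X) * E) * (∫ z in Arm i, GA i x z * ‖z‖ ^ (-mp i)) ≤
        (2 * (C0 * X) * E) * (C3 * ‖x‖ ^ (2 - mp i)) :=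
      mul_le_mul_of_nonneg_left hS2x (by positivity)
    have h2 : (2 * (C0 * X) * E) * (C3 * ‖x‖ ^ (2 - mp i)) =
        2 * C0 * E * C3 * (Y * ‖x‖ ^ 2) := by
      rw [← hXX]
      ring
    have h3 : (C0 * X) ^ 2 * K = C0 ^ 2 * K * Y := by
      rw [mul_pow, hX2]
      ring
    have h4 : C0 ^ 2 * K * Y ≤ C0 ^ 2 * K * (Y * ‖x‖ ^ 2) := by
      refine mul_le_mul_of_nonneg_left ?_ (by positivity)
      exact le_mul_of_one_le_right hYp.le (by nlinarith)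
    rw [htail, hgam] at hintA
    nlinarith
  unfold Gt
  rw [div_le_iff₀ (by positivity)]
  refine hGam.trans ?_
  have h1 : (T / psi x ^ 2) * (psi x * psi x) = T := by
    field_simp
  have h2 : (2 * C0 * E * C3 + 2 * C0 ^ 2 * K) * (Y * ‖x‖ ^ 2) ≤
      (2 * C0 * E * C3 + 2 * C0 ^ 2 * K) * (Y * (400 * psi x ^ 2)) := by
    refine mul_le_mul_of_nonneg_left ?_ (by positivity)
    exact mul_le_mul_of_nonneg_left hpsi2 hYp.le
  have h3 : 0 ≤ Y * psi x ^ 2 := by positivity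
  nlinarith

/-- **E1** -/
theorem st_E1 (hT2 : ST_T2) (hTM : ST_TM) (hSEC0 : ST_SEC0) (hS1 : ST_S1) (hS2 : ST_S2)
    (hS3 : ST_S3) (hU1 : ST_U1) (hU2 : ST_U2) (hGF2 : ST_GF2) (hGEO : ST_GEO) : ST_E1 := by
  obtain ⟨C, hC, hcore⟩ := core hT2 hTM hSEC0 hS1 hS2 hU1 hU2 hGF2 hGEO
  refine ⟨⟨C, hC, ?_⟩, ?_⟩
  · intro Rv R hs i x hx hxA hx4
    have h := hcore Rv R hs i x hx hxA hx4
    have h1 : 0 ≤ (∫ y in Arm i \ ArmR i (Rv i), (GA i x y) ^ 2) / psi x ^ 2 :=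
      div_nonneg (integral_nonneg fun y => sq_nonneg _) (sq_nonneg _)
    linarith
  · intro i a b ha hb
    obtain ⟨c, hc, hS⟩ := hS3.2 i a b ha hb
    refine ⟨c, C, hc, hC, ?_⟩
    intro Rv R hs x hx hxab hx4 hxR
    have hx0 : x ≠ 0 := by
      intro h
      rw [h, norm_zero] at hx4
      linarith
    have hxn : 0 < ‖x‖ := norm_pos_iff.mpr hx0
    have hxA : x ∈ Arm i := ⟨hx0, lt_of_lt_of_le ha hxab.1, lt_of_le_of_lt hxab.2 hb⟩
    have h := hcore Rv R hs i x hx hxA hx4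
    have ht := hS x hx0 hxab (Rv i) hxR
    obtain ⟨_, hps, hps2⟩ := hSEC0.1 i x hxA
    have hpsi : 0 < psi x := by linarith [show 0 < ‖x‖ / 20 by positivity]
    have hRp : 0 < Rv i := by linarith
    set T : ℝ := ∫ y in Arm i \ ArmR i (Rv i), (GA i x y) ^ 2 with hT
    set q : ℝ := (‖x‖ / Rv i) ^ (2 * mm i - 2) with hq
    have hqn : 0 ≤ q := by positivity
    have h1 : c * q ≤ T / psi x ^ 2 := by
      rw [le_div_iff₀ (by positivity)]
      refine le_trans ?_ ht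
      have h2 : psi x ^ 2 ≤ ‖x‖ ^ 2 := by nlinarith
      have h3 : 0 ≤ c * q := by positivity
      nlinarith
    linarith

end LEP.E1
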